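import Pool.Agent.H16.CX.Basic

/-!
# Module CLS: every orbit meets `FE` in countably many classes
-/

set_option autoImplicit false

open Set Topology Filter MeasureTheory

namespace Pool.Agent.H71.CXS

open Pool.Agent.H16.CX

section
variable {X : Type} [MetricSpace X]

/-- the stabilizer of `y` -/
def st (R : RS X) (y : X) : Subgroup (Equiv.Perm ℕ) where
  carrier := {σ | R.res (pe σ) y = y}
  mul_mem' := by
    intro g h hg hh
    have hg' : R.res (pe g) y = y := hg
    have hh' : R.res (pe h) y = y := hh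
    show R.res (pe (g * h)) y = y
    rw [res_mul, hg', hh']
  one_mem' := res_one R y
  inv_mem' := by
    intro g hg
    have hg' : R.res (pe g) y = y := hg
    show R.res (pe g⁻¹) y = y
    conv_lhs => rw [← hg']
    exact res_inv_res R g y

lemma mem_st {R : RS X} {y : X} {g : Equiv.Perm ℕ} : g ∈ st R y ↔ R.res (pe g) y = y := Iff.rfl

/-- the relation `a ~ b`: the transposition `(a b)` fixes `y` -/
def rel (R : RS X) (y : X) (a b : ℕ) : Prop := Equiv.swap a b ∈ st R y

lemma rel_refl (R : RS X) (y : X) (a : ℕ) : rel R y a a := by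
  unfold rel
  rw [Equiv.swap_self]
  exact (st R y).one_mem

lemma rel_symm {R : RS X} {y : X} {a b : ℕ} (h : rel R y a b) : rel R y b a := by
  unfold rel at h ⊢
  rwa [Equiv.swap_comm]

lemma rel_trans {R : RS X} {y : X} {a b c : ℕ} (h : rel R y a b) (h' : rel R y b c) :
    rel R y a c := SubmonoidClass.swap_mem_trans _ h h'

/-- approximation by products of transpositions -/
lemma approx (R : RS X) (y : X) (σ : Equiv.Perm ℕ) (hσ : ∀ i, rel R y i (σ i)) (n : ℕ) :
    ∃ h ∈ st R y, (∀ i < n, h i = σ i) ∧ ∀ i, rel R y i (h i) := by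
  induction n with
  | zero => exact ⟨1, (st R y).one_mem, by simp, fun i => rel_refl R y i⟩
  | succ n ih =>
    obtain ⟨h, h1, h2, h3⟩ := ih
    have h4 : rel R y (h n) (σ n) := rel_trans (rel_symm (h3 n)) (hσ n)
    refine ⟨Equiv.swap (h n) (σ n) * h, (st R y).mul_mem h4 h1, ?_, ?_⟩
    · intro i hi
      rw [Equiv.Perm.mul_apply]
      rcases Nat.lt_succ_iff_lt_or_eq.1 hi with hi | rfl
      · rw [h2 i hi, Equiv.swap_apply_of_ne_of_ne]
        · rw [← h2 i hi]
          exact fun h5 => hi.ne (h.injective h5)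
        · exact fun h5 => hi.ne (σ.injective h5)
      · rw [Equiv.swap_apply_left]
    · intro i
      rw [Equiv.Perm.mul_apply]
      by_cases h5 : h i = h n
      · rw [h5, Equiv.swap_apply_left, h.injective h5]
        exact hσ n
      · by_cases h6 : h i = σ n
        · rw [h6, Equiv.swap_apply_right]
          exact rel_trans (h6 ▸ h3 i) (rel_symm h4)
        · rw [Equiv.swap_apply_of_ne_of_ne h5 h6]
          exact h3 i

/-- a permutation that respects the classes fixes `y` -/
lemma mem_st_of_rel (R : RS X) (y : X) (σ : Equiv.Perm ℕ) (hσ : ∀ i, rel R y i (σ i)) :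
    σ ∈ st R y := by
  rw [mem_st]
  refine eq_of_dist_eq_zero (le_antisymm (le_of_forall_pos_le_add fun ε hε => ?_) dist_nonneg)
  obtain ⟨n, hn⟩ := R.unif ε hε
  obtain ⟨h, h1, h2, -⟩ := approx R y σ hσ n
  have h3 := hn (pe σ) (pe h) (fun i hi => (h2 i hi).symm) y
  rw [mem_st.1 h1] at h3
  linarith

/-- a point `x` of `FE` in the orbit of `y`: the image of the odd numbers lies in one class -/
lemma rel_odd (R : RS X) {x y : X} (hx : x ∈ FE R) (g : Equiv.Perm ℕ) (hg : R.res (pe g) y = x)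
    (j k : ℕ) : rel R y (g (2 * j + 1)) (g (2 * k + 1)) := by
  have hy : R.res (pe g⁻¹) x = y := by rw [← hg, res_inv_res]
  show R.res _ y = y
  set σ := Equiv.swap (g (2 * j + 1)) (g (2 * k + 1)) with hσ
  have h1 : R.res (pe (g⁻¹ * σ * g)) x = x := by
    refine hx _ fun i => ?_
    rw [Equiv.Perm.mul_apply, Equiv.Perm.mul_apply, hσ, Equiv.swap_apply_of_ne_of_ne]
    · exact g.symm_apply_apply _
    · intro h
      have := g.injective h
      omega
    · intro h
      have := g.injective h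
      omega
  calc R.res (pe σ) y = R.res (pe σ) (R.res (pe g⁻¹) x) := by rw [hy]
    _ = R.res (pe (g⁻¹ * σ)) x := (res_mul R g⁻¹ σ x).symm
    _ = R.res (pe ((g⁻¹ * σ * g) * g⁻¹)) x := by rw [mul_inv_cancel_right]
    _ = R.res (pe g⁻¹) (R.res (pe (g⁻¹ * σ * g)) x) := res_mul R _ _ x
    _ = y := by rw [h1, hy]

/-- the class of `n` -/
def cls (R : RS X) (y : X) (n : ℕ) : Set ℕ := {m | rel R y n m}

lemma cls_eq {R : RS X} {y : X} {a b : ℕ} : cls R y a = cls R y b ↔ rel R y a b := by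
  constructor
  · intro h
    have h1 : b ∈ cls R y b := rel_refl R y b
    rw [← h] at h1
    exact h1
  · intro h
    ext m
    exact ⟨fun h1 => rel_trans (rel_symm h) h1, fun h1 => rel_trans h h1⟩

/-- a class other than the class of the image of the odd numbers -/
lemma card_fiber (R : RS X) {x y : X} (hx : x ∈ FE R) (g : Equiv.Perm ℕ)
    (hg : R.res (pe g) y = x) (c : Set ℕ) (hc : c ≠ cls R y (g 1)) :
    Nonempty ({i : ℕ // cls R y (g (2 * i)) = c} ≃ {n : ℕ // cls R y n = c}) := by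
  refine ⟨Equiv.ofBijective (fun i => ⟨g (2 * i.1), i.2⟩) ⟨?_, ?_⟩⟩
  · rintro ⟨i, hi⟩ ⟨j, hj⟩ hij
    have h1 : 2 * i = 2 * j := g.injective (congrArg Subtype.val hij)
    exact Subtype.ext (Nat.eq_of_mul_eq_mul_left two_pos h1)
  · rintro ⟨n, hn⟩
    obtain ⟨m, rfl⟩ := g.surjective n
    rcases Nat.even_or_odd' m with ⟨i, rfl | rfl⟩
    · exact ⟨⟨i, hn⟩, rfl⟩
    · refine absurd ?_ hc
      rw [← hn, cls_eq]
      exact rel_odd R hx g hg i 0

end

theorem pf_cls : T_CLS := by
  intro X _ R y T hT hy hTT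
  choose! g hg using hy
  let f : X → ℕ × ℕ∞ := fun x =>
    (g x 1, Cardinal.toENat (Cardinal.mk {i : ℕ // rel R y (g x 1) (g x (2 * i))}))
  refine Set.MapsTo.countable_of_injOn (f := f) (t := Set.univ) (fun x _ => Set.mem_univ _) ?_
    Set.countable_univ
  intro x hx x' hx' hxx
  have e1 : g x 1 = g x' 1 := congrArg Prod.fst hxx
  have e2 : Cardinal.mk {i : ℕ // rel R y (g x 1) (g x (2 * i))} =
      Cardinal.mk {i : ℕ // rel R y (g x' 1) (g x' (2 * i))} :=
    Cardinal.toENat_injOn Cardinal.mk_le_aleph0 Cardinal.mk_le_aleph0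
      (congrArg Prod.snd hxx)
  have hgx := hg x hx
  have hgx' := hg x' hx'
  have key : ∀ c : Set ℕ, Nonempty
      ({i : ℕ // cls R y (g x (2 * i)) = c} ≃ {i : ℕ // cls R y (g x' (2 * i)) = c}) := by
    intro c
    by_cases hc : c = cls R y (g x 1)
    · obtain ⟨e⟩ := Cardinal.eq.1 e2
      have k1 : ∀ i, cls R y (g x (2 * i)) = c ↔ rel R y (g x 1) (g x (2 * i)) := by
        intro i
        rw [hc, cls_eq]
        exact ⟨rel_symm, rel_symm⟩
      have k2 : ∀ i, cls R y (g x' (2 * i)) = c ↔ rel R y (g x' 1) (g x' (2 * i)) := by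
        intro i
        rw [hc, cls_eq, e1]
        exact ⟨rel_symm, rel_symm⟩
      exact ⟨(Equiv.subtypeEquivRight k1).trans (e.trans (Equiv.subtypeEquivRight k2).symm)⟩
    · obtain ⟨e⟩ := card_fiber R (hT hx) (g x) hgx c hc
      obtain ⟨e'⟩ := card_fiber R (hT hx') (g x') hgx' c (e1 ▸ hc)
      exact ⟨e.trans e'.symm⟩
  let h : Equiv.Perm ℕ := Equiv.ofFiberEquiv (f := fun i => cls R y (g x (2 * i)))
    (g := fun i => cls R y (g x' (2 * i))) fun c => (key c).some
  have hh : ∀ i, cls R y (g x' (2 * h i)) = cls R y (g x (2 * i)) := fun i =>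
    Equiv.ofFiberEquiv_map (f := fun i => cls R y (g x (2 * i)))
      (g := fun i => cls R y (g x' (2 * i))) (fun c => (key c).some) i
  let τ : Equiv.Perm ℕ := Equiv.natSumNatEquivNat.symm.trans
    ((Equiv.sumCongr h (Equiv.refl ℕ)).trans Equiv.natSumNatEquivNat)
  have hτ0 : ∀ i, τ (2 * i) = 2 * h i := by
    intro i
    have h1 : Equiv.natSumNatEquivNat.symm (2 * i) = Sum.inl i := by
      rw [Equiv.symm_apply_eq]
      rfl
    show Equiv.natSumNatEquivNat (Equiv.sumCongr h (Equiv.refl ℕ)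
      (Equiv.natSumNatEquivNat.symm (2 * i))) = _
    rw [h1]
    rfl
  have hτ1 : ∀ i, τ (2 * i + 1) = 2 * i + 1 := by
    intro i
    have h1 : Equiv.natSumNatEquivNat.symm (2 * i + 1) = Sum.inr i := by
      rw [Equiv.symm_apply_eq]
      rfl
    show Equiv.natSumNatEquivNat (Equiv.sumCongr h (Equiv.refl ℕ)
      (Equiv.natSumNatEquivNat.symm (2 * i + 1))) = _
    rw [h1]
    rfl
  have hσ : g x' * τ * (g x)⁻¹ ∈ st R y := by
    refine mem_st_of_rel R y _ fun k => ?_
    obtain ⟨m, rfl⟩ := (g x).surjective k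
    have hinv : (g x)⁻¹ (g x m) = m := (g x).symm_apply_apply m
    rw [Equiv.Perm.mul_apply, Equiv.Perm.mul_apply, hinv]
    rcases Nat.even_or_odd' m with ⟨i, rfl | rfl⟩
    · rw [hτ0]
      exact cls_eq.1 (hh i).symm
    · rw [hτ1]
      have h1 := rel_odd R (hT hx) (g x) hgx i 0
      have h2 := rel_odd R (hT hx') (g x') hgx' 0 i
      have h3 : rel R y (g x (2 * i + 1)) (g x 1) := h1
      have h4 : rel R y (g x' 1) (g x' (2 * i + 1)) := h2
      rw [← e1] at h4
      exact rel_trans h3 h4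
  refine (hTT x' hx' x hx ⟨τ, h, hτ0, ?_⟩).symm
  calc R.res (pe τ) x' = R.res (pe τ) (R.res (pe (g x')) y) := by rw [hgx']
    _ = R.res (pe (g x' * τ)) y := (res_mul R _ _ y).symm
    _ = R.res (pe ((g x' * τ * (g x)⁻¹) * g x)) y := by rw [inv_mul_cancel_right]
    _ = R.res (pe (g x)) (R.res (pe (g x' * τ * (g x)⁻¹)) y) := res_mul R _ _ y
    _ = x := by rw [mem_st.1 hσ, hgx]

end Pool.Agent.H71.CXS
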